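import Mathlib

open Set Filter Topology Uniformity

namespace Pool.Agent.Results.MP_f56686_gt.FreeGroupTukey

/-- A subset of a poset is cofinal if every element lies below one of its members. -/
def Cofinal {P : Type*} [LE P] (S : Set P) : Prop := ∀ p : P, ∃ s ∈ S, p ≤ s

/-- `P ≤_T Q`: some map `Q → P` sends cofinal subsets of `Q` to cofinal subsets of `P`. -/
def TukeyLE (P Q : Type*) [LE P] [LE Q] : Prop :=
  ∃ θ : Q → P, ∀ S : Set Q, Cofinal S → Cofinal (θ '' S)

/-- `P =_T Q`. -/
def TukeyEq (P Q : Type*) [LE P] [LE Q] : Prop := TukeyLE P Q ∧ TukeyLE Q P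

/-- The entourages of a uniform space, ordered by reverse inclusion. -/
abbrev Entourages (X : Type*) [UniformSpace X] : Type _ := {U : Set (X × X) // U ∈ 𝓤 X}ᵒᵈ

/-- The neighbourhoods of the identity in a group with a topology, ordered by reverse
inclusion. -/
abbrev IdNhds {G : Type*} [Group G] (t : TopologicalSpace G) : Type _ :=
  {V : Set G // V ∈ @nhds G t 1}ᵒᵈ

/-- `ω`-narrow uniform spaces. -/
def OmegaNarrow (X : Type*) [UniformSpace X] : Prop :=
  ∀ U ∈ 𝓤 X, ∃ A : Set X, A.Countable ∧ ∀ x : X, ∃ a ∈ A, (a, x) ∈ U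

/-- The canonical map of the uniform space `X` into the free group on `X` is uniformly continuous
with respect to the two-sided uniformity of the topology `t` on the free group: for every
neighbourhood `V` of `1` there is an entourage `U` with `x⁻¹ y ∈ V` and `x y⁻¹ ∈ V` for all
`(x, y) ∈ U`. -/
def UnifContInto (X : Type*) [UniformSpace X] (t : TopologicalSpace (FreeGroup X)) : Prop :=
  ∀ V ∈ @nhds _ t 1, ∃ U ∈ 𝓤 X, ∀ p ∈ U,
    (FreeGroup.of p.1)⁻¹ * FreeGroup.of p.2 ∈ V ∧ FreeGroup.of p.1 * (FreeGroup.of p.2)⁻¹ ∈ V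

/-- The group topologies on the free group for which the canonical map is uniformly continuous. -/
def Admissible (X : Type*) [UniformSpace X] : Set (TopologicalSpace (FreeGroup X)) :=
  {t | @IsTopologicalGroup (FreeGroup X) t _ ∧ UnifContInto X t}

/-- `t` is the topology of the free topological group over the uniform space `X`: the finest
admissible topology (`t ≤ t'` says that `t` is finer than `t'`). -/
def IsFreeTopology (X : Type*) [UniformSpace X] (t : TopologicalSpace (FreeGroup X)) : Prop :=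
  t ∈ Admissible X ∧ ∀ t' ∈ Admissible X, t ≤ t'

/-- The topology of the free topological group `F(X, 𝒰)`. -/
@[reducible] def freeTopology (X : Type*) [UniformSpace X] : TopologicalSpace (FreeGroup X) :=
  sInf (Admissible X)

theorem unifContInto_iff (X : Type*) [UniformSpace X] (t : TopologicalSpace (FreeGroup X)) :
    UnifContInto X t ↔
      Tendsto (fun p : X × X => (FreeGroup.of p.1)⁻¹ * FreeGroup.of p.2) (𝓤 X) (@nhds _ t 1) ∧
      Tendsto (fun p : X × X => FreeGroup.of p.1 * (FreeGroup.of p.2)⁻¹) (𝓤 X)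
        (@nhds _ t 1) := by
  constructor
  · intro h
    constructor
    · intro V hV
      obtain ⟨U, hU, h1⟩ := h V hV
      exact Filter.mem_map.2 (Filter.mem_of_superset hU fun p hp => (h1 p hp).1)
    · intro V hV
      obtain ⟨U, hU, h1⟩ := h V hV
      exact Filter.mem_map.2 (Filter.mem_of_superset hU fun p hp => (h1 p hp).2)
  · rintro ⟨h1, h2⟩ V hV
    exact ⟨_, Filter.inter_mem (h1 hV) (h2 hV), fun p hp => ⟨hp.1, hp.2⟩⟩

theorem isFreeTopology_freeTopology (X : Type*) [UniformSpace X] :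
    IsFreeTopology X (freeTopology X) := by
  refine ⟨⟨topologicalGroup_sInf fun t ht => ht.1, ?_⟩, fun t' ht' => sInf_le ht'⟩
  rw [unifContInto_iff, freeTopology, nhds_sInf]
  constructor
  · rw [tendsto_iInf]
    intro t
    rw [tendsto_iInf]
    intro ht
    exact ((unifContInto_iff X t).1 ht.2).1
  · rw [tendsto_iInf]
    intro t
    rw [tendsto_iInf]
    intro ht
    exact ((unifContInto_iff X t).1 ht.2).2

/-! ### The space -/

/-- A set of size `2 ^ 2 ^ 𝔠`. -/
abbrev K : Type := Set ((ℕ → ℕ) → ℕ)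

/-- The underlying set of the counterexample. -/
abbrev Sp : Type := Option ℕ ⊕ Option K

open Classical in
/-- Collapsing map for the convergent sequence. -/
noncomputable def colN (n : ℕ) : Option ℕ → Option ℕ
  | none => none
  | some m => if n ≤ m then none else some m

open Classical in
/-- Collapsing map for the Lindelöf part. -/
noncomputable def colK (C : Set K) : Option K → Option K
  | none => none
  | some x => if x ∈ C then some x else none

/-- Collapsing map. -/
noncomputable def col (n : ℕ) (C : Set K) : Sp → Sp := Sum.map (colN n) (colK C)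

/-- Basic entourages. -/
def R (n : ℕ) (C : Set K) : Set (Sp × Sp) := {p | col n C p.1 = col n C p.2}

theorem mem_R {n : ℕ} {C : Set K} {p : Sp × Sp} : p ∈ R n C ↔ col n C p.1 = col n C p.2 := Iff.rfl

theorem colN_eq_of_le {n m : ℕ} (h : n ≤ m) {a b : Option ℕ} (hab : colN m a = colN m b) :
    colN n a = colN n b := by
  have key : ∀ a : Option ℕ, colN n a = colN n (colN m a) := by
    intro a
    rcases a with _ | a
    · rfl
    · by_cases h1 : m ≤ a
      · simp [colN, h1, h.trans h1]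
      · simp [colN, h1]
  rw [key a, key b, hab]

theorem colK_eq_of_le {C D : Set K} (h : C ⊆ D) {a b : Option K} (hab : colK D a = colK D b) :
    colK C a = colK C b := by
  have key : ∀ a : Option K, colK C a = colK C (colK D a) := by
    intro a
    rcases a with _ | a
    · rfl
    · by_cases h1 : a ∈ D
      · simp [colK, h1]
      · have h2 : a ∉ C := fun h3 => h1 (h h3)
        simp [colK, h1, h2]
  rw [key a, key b, hab]

theorem R_anti {n m : ℕ} {C D : Set K} (h : n ≤ m) (h' : C ⊆ D) : R m D ⊆ R n C := by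
  rintro ⟨a, b⟩ hp
  rw [mem_R] at hp ⊢
  rcases a with a | a <;> rcases b with b | b
  · simp only [col, Sum.map_inl, Sum.inl.injEq] at hp ⊢
    exact colN_eq_of_le h hp
  · simp [col] at hp
  · simp [col] at hp
  · simp only [col, Sum.map_inr, Sum.inr.injEq] at hp ⊢
    exact colK_eq_of_le h' hp

/-- The basis of the uniformity. -/
def basis : FilterBasis (Sp × Sp) where
  sets := {r | ∃ (n : ℕ) (C : Set K), C.Countable ∧ r = R n C}
  nonempty := ⟨R 0 ∅, 0, ∅, countable_empty, rfl⟩
  inter_sets := by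
    rintro _ _ ⟨n, C, hC, rfl⟩ ⟨m, D, hD, rfl⟩
    exact ⟨R (max n m) (C ∪ D), ⟨_, _, hC.union hD, rfl⟩,
      subset_inter (R_anti (le_max_left _ _) subset_union_left)
        (R_anti (le_max_right _ _) subset_union_right)⟩

theorem mem_basis {r : Set (Sp × Sp)} :
    r ∈ basis ↔ ∃ (n : ℕ) (C : Set K), C.Countable ∧ r = R n C := Iff.rfl

/-- The uniform structure of the counterexample. -/
def core : UniformSpace.Core Sp :=
  UniformSpace.Core.mkOfBasis basis
    (by
      rintro _ ⟨n, C, hC, rfl⟩ x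
      rfl)
    (by
      rintro _ ⟨n, C, hC, rfl⟩
      exact ⟨R n C, ⟨n, C, hC, rfl⟩, fun p hp => (mem_R.1 hp).symm⟩)
    (by
      rintro _ ⟨n, C, hC, rfl⟩
      refine ⟨R n C, ⟨n, C, hC, rfl⟩, ?_⟩
      rintro ⟨a, b⟩ ⟨c, hac, hcb⟩
      exact (mem_R.1 hac).trans (mem_R.1 hcb))

instance unif : UniformSpace Sp := UniformSpace.ofCore core

theorem mem_unif {U : Set (Sp × Sp)} :
    U ∈ 𝓤 Sp ↔ ∃ (n : ℕ) (C : Set K), C.Countable ∧ R n C ⊆ U := by
  have h : U ∈ 𝓤 Sp ↔ U ∈ basis.filter := Iff.rfl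
  rw [h, FilterBasis.mem_filter_iff]
  constructor
  · rintro ⟨s, ⟨n, C, hC, rfl⟩, hs⟩
    exact ⟨n, C, hC, hs⟩
  · rintro ⟨n, C, hC, hs⟩
    exact ⟨R n C, ⟨n, C, hC, rfl⟩, hs⟩

theorem R_mem_unif (n : ℕ) {C : Set K} (hC : C.Countable) : R n C ∈ 𝓤 Sp :=
  mem_unif.2 ⟨n, C, hC, Subset.rfl⟩

theorem t2 : T2Space Sp := by
  have : T0Space Sp := by
    rw [t0Space_iff_uniformity]
    intro x y h
    rcases x with x | x
    · -- choose `n` large
      rcases x with _ | x
      · rcases y with y | y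
        · rcases y with _ | y
          · rfl
          · have h1 := h _ (R_mem_unif (y + 1) countable_empty)
            simp [R, col, colN] at h1
        · have h1 := h _ (R_mem_unif 0 countable_empty)
          simp [R, col] at h1
      · rcases y with y | y
        · rcases y with _ | y
          · have h1 := h _ (R_mem_unif (x + 1) countable_empty)
            simp [R, col, colN] at h1
          · have h1 := h _ (R_mem_unif (x + y + 1) countable_empty)
            have h2 : ¬ (x + y + 1 ≤ x) := by omega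
            have h3 : ¬ (x + y + 1 ≤ y) := by omega
            simp only [R, col, colN, Set.mem_ofPred_eq, Sum.map_inl, h2, h3, if_false] at h1
            exact h1
        · have h1 := h _ (R_mem_unif 0 countable_empty)
          simp [R, col] at h1
    · rcases y with y | y
      · have h1 := h _ (R_mem_unif 0 countable_empty)
        simp [R, col] at h1
      · rcases x with _ | x
        · rcases y with _ | y
          · rfl
          · have h1 := h _ (R_mem_unif 0 (countable_singleton y))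
            simp [R, col, colK] at h1
        · rcases y with _ | y
          · have h1 := h _ (R_mem_unif 0 (countable_singleton x))
            simp [R, col, colK] at h1
          · have h1 := h _ (R_mem_unif 0 ((countable_singleton x).union (countable_singleton y)))
            simpa [R, col, colK] using h1
  infer_instance

theorem omegaNarrow : OmegaNarrow Sp := by
  intro U hU
  obtain ⟨n, C, hC, h⟩ := mem_unif.1 hU
  refine ⟨range Sum.inl ∪ (Sum.inr '' ({none} ∪ some '' C)), ?_, ?_⟩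
  · exact (countable_range _).union (((countable_singleton _).union (hC.image _)).image _)
  · rintro (x | x)
    · exact ⟨Sum.inl x, Or.inl ⟨x, rfl⟩, h rfl⟩
    · rcases x with _ | x
      · exact ⟨Sum.inr none, Or.inr ⟨none, Or.inl rfl, rfl⟩, h rfl⟩
      · by_cases hx : x ∈ C
        · exact ⟨Sum.inr (some x), Or.inr ⟨some x, Or.inr ⟨x, hx, rfl⟩, rfl⟩, h rfl⟩
        · refine ⟨Sum.inr none, Or.inr ⟨none, Or.inl rfl, rfl⟩, h ?_⟩
          simp [R, col, colK, hx]


/-! ### Homomorphisms into `SL(2, ℝ)` -/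

/-- Unipotent matrices. -/
def Um (e : ℝ) : Matrix.SpecialLinearGroup (Fin 2) ℝ :=
  ⟨!![1, e; 0, 1], by simp [Matrix.det_fin_two]⟩

/-- Diagonal matrices. -/
noncomputable def Dg (a : ℝ) (ha : a ≠ 0) : Matrix.SpecialLinearGroup (Fin 2) ℝ :=
  ⟨!![a, 0; 0, a⁻¹], by simp [Matrix.det_fin_two, ha]⟩

theorem Um_zero : Um 0 = 1 := by
  ext i j
  fin_cases i <;> fin_cases j <;> simp [Um]

theorem Um_mul (e f : ℝ) : Um e * Um f = Um (e + f) := by
  apply Subtype.ext
  change (!![1, e; 0, 1] * !![1, f; 0, 1] : Matrix (Fin 2) (Fin 2) ℝ) = !![1, e + f; 0, 1]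
  rw [Matrix.mul_fin_two]
  congr 1
  simp [add_comm]

theorem Um_inv (e : ℝ) : (Um e)⁻¹ = Um (-e) := by
  rw [inv_eq_iff_mul_eq_one, Um_mul, add_neg_cancel, Um_zero]

theorem continuous_Um : Continuous Um := by
  refine Continuous.subtype_mk ?_ _
  refine continuous_matrix fun i j => ?_
  fin_cases i <;> fin_cases j <;> simp <;> fun_prop

theorem conj_entry (a e : ℝ) (ha : a ≠ 0) :
    (Dg a ha * Um e * (Dg a ha)⁻¹).1 0 1 = a ^ 2 * e := by
  have : (Dg a ha * Um e * (Dg a ha)⁻¹).1 =
      !![a, 0; 0, a⁻¹] * !![1, e; 0, 1] * !![a⁻¹, 0; 0, a] := by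
    change (!![a, 0; 0, a⁻¹] * !![1, e; 0, 1] * Matrix.adjugate !![a, 0; 0, a⁻¹] :
      Matrix (Fin 2) (Fin 2) ℝ) = _
    rw [Matrix.adjugate_fin_two]
    simp
  rw [this]
  simp [Matrix.mul_apply, Fin.sum_univ_two]
  ring

/-- The null sequence. -/
noncomputable def eps : Option ℕ → ℝ
  | none => 0
  | some m => 1 / ((m : ℝ) + 1) ^ 2

/-- The amplification factor. -/
def amp (φ : K → ℕ) : Option K → ℝ
  | none => 1
  | some x => (φ x : ℝ) + 1

theorem amp_ne (φ : K → ℕ) (x : Option K) : amp φ x ≠ 0 := by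
  rcases x with _ | x
  · simp [amp]
  · simp only [amp]
    positivity

/-- The map into `SL(2, ℝ)` given by `φ`. -/
noncomputable def imap (φ : K → ℕ) : Sp → Matrix.SpecialLinearGroup (Fin 2) ℝ
  | Sum.inl a => Um (eps a)
  | Sum.inr a => Dg (amp φ a) (amp_ne φ a)

theorem eps_nonneg (a : Option ℕ) : 0 ≤ eps a := by
  rcases a with _ | a
  · simp [eps]
  · simp only [eps]
    positivity

theorem eps_le {n : ℕ} {a : Option ℕ} (h : colN n a = none) : eps a ≤ 1 / ((n : ℝ) + 1) ^ 2 := by
  rcases a with _ | a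
  · simp only [eps]
    positivity
  · have h1 : n ≤ a := by
      by_contra h2
      simp [colN, h2] at h
    simp only [eps]
    have h3 : (n : ℝ) ≤ a := by exact_mod_cast h1
    have h4 : (0 : ℝ) ≤ n := Nat.cast_nonneg n
    gcongr

theorem eps_diff {n : ℕ} {a b : Option ℕ} (h : colN n a = colN n b) :
    |eps b - eps a| ≤ 1 / ((n : ℝ) + 1) ^ 2 := by
  by_cases h1 : colN n a = none
  · have h2 : colN n b = none := h ▸ h1
    rw [abs_le]
    have h3 := eps_le h1
    have h4 := eps_le h2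
    have h5 := eps_nonneg a
    have h6 := eps_nonneg b
    constructor <;> linarith
  · have key : ∀ c : Option ℕ, colN n c ≠ none → colN n c = c := by
      intro c hc
      rcases c with _ | c
      · rfl
      · by_cases h7 : n ≤ c
        · exact absurd (by simp [colN, h7]) hc
        · simp [colN, h7]
    have h2 : colN n b ≠ none := h ▸ h1
    rw [key a h1, key b h2] at h
    rw [h, sub_self, abs_zero]
    positivity

theorem amp_eq {φ : K → ℕ} {a b : Option K} (h : colK {x | φ x ≠ 0} a = colK {x | φ x ≠ 0} b) :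
    amp φ a = amp φ b := by
  have key : ∀ c : Option K, amp φ (colK {x | φ x ≠ 0} c) = amp φ c := by
    intro c
    rcases c with _ | c
    · rfl
    · by_cases h7 : φ c ≠ 0
      · simp [colK, h7]
      · simp only [ne_eq, not_not] at h7
        simp [colK, h7, amp]
  rw [← key a, ← key b, h]

theorem imap_close {φ : K → ℕ} {n : ℕ} {p : Sp × Sp} (hp : p ∈ R n {x | φ x ≠ 0}) :
    ∃ r : ℝ, |r| ≤ 1 / ((n : ℝ) + 1) ^ 2 ∧ (imap φ p.1)⁻¹ * imap φ p.2 = Um r ∧
      imap φ p.1 * (imap φ p.2)⁻¹ = Um (-r) := by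
  obtain ⟨a, b⟩ := p
  rw [mem_R] at hp
  rcases a with a | a <;> rcases b with b | b
  · simp only [col, Sum.map_inl, Sum.inl.injEq] at hp
    refine ⟨eps b - eps a, eps_diff hp, ?_, ?_⟩
    · simp only [imap, Um_inv, Um_mul]
      congr 1
      ring
    · simp only [imap, Um_inv, Um_mul]
      congr 1
      ring
  · simp [col] at hp
  · simp [col] at hp
  · simp only [col, Sum.map_inr, Sum.inr.injEq] at hp
    have h1 : imap φ (Sum.inr a) = imap φ (Sum.inr b) := by
      simp only [imap]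
      congr 1
      exact amp_eq hp
    refine ⟨0, by rw [abs_zero]; positivity, ?_, ?_⟩
    · simp [h1, Um_zero]
    · simp [h1, Um_zero]

/-- The group homomorphism given by `φ`. -/
noncomputable def hom (φ : K → ℕ) : FreeGroup Sp →* Matrix.SpecialLinearGroup (Fin 2) ℝ :=
  FreeGroup.lift (imap φ)

/-- The induced topology. -/
@[reducible] noncomputable def indTop (φ : K → ℕ) : TopologicalSpace (FreeGroup Sp) :=
  TopologicalSpace.induced (hom φ) inferInstance

theorem indTop_admissible {φ : K → ℕ} (hφ : {x | φ x ≠ 0}.Countable) :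
    indTop φ ∈ Admissible Sp := by
  refine ⟨topologicalGroup_induced (hom φ), ?_⟩
  intro V hV
  rw [nhds_induced, map_one] at hV
  obtain ⟨W, hW, hWV⟩ := Filter.mem_comap.1 hV
  have h1 : Um ⁻¹' W ∈ 𝓝 (0 : ℝ) := by
    apply continuous_Um.continuousAt
    rw [Um_zero]
    exact hW
  obtain ⟨δ, hδ, hball⟩ := Metric.mem_nhds_iff.1 h1
  obtain ⟨n, hn⟩ := exists_nat_one_div_lt hδ
  have h2 : 1 / ((n : ℝ) + 1) ^ 2 < δ := by
    refine lt_of_le_of_lt ?_ hn
    apply one_div_le_one_div_of_le
    · positivity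
    · have : (0 : ℝ) ≤ n := Nat.cast_nonneg n
      nlinarith
  refine ⟨R n {x | φ x ≠ 0}, R_mem_unif n hφ, fun p hp => ?_⟩
  obtain ⟨r, hr, h3, h4⟩ := imap_close hp
  have h5 : ∀ r' : ℝ, |r'| ≤ 1 / ((n : ℝ) + 1) ^ 2 → Um r' ∈ W := by
    intro r' hr'
    have : r' ∈ Metric.ball (0 : ℝ) δ := by
      rw [Metric.mem_ball, Real.dist_eq, sub_zero]
      exact lt_of_le_of_lt hr' h2
    exact hball this
  constructor
  · apply hWV
    change hom φ _ ∈ W
    have : hom φ ((FreeGroup.of p.1)⁻¹ * FreeGroup.of p.2) = Um r := by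
      simp only [hom, map_mul, map_inv, FreeGroup.lift_apply_of]
      exact h3
    rw [this]
    exact h5 r hr
  · apply hWV
    change hom φ _ ∈ W
    have : hom φ (FreeGroup.of p.1 * (FreeGroup.of p.2)⁻¹) = Um (-r) := by
      simp only [hom, map_mul, map_inv, FreeGroup.lift_apply_of]
      exact h4
    rw [this]
    exact h5 (-r) (by rw [abs_neg]; exact hr)

/-- The test neighbourhoods. -/
def Vset (φ : K → ℕ) : Set (FreeGroup Sp) := {w | |(hom φ w).1 0 1| < 1 / 2}

theorem Vset_mem {φ : K → ℕ} (hφ : {x | φ x ≠ 0}.Countable)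
    {t : TopologicalSpace (FreeGroup Sp)} (ht : IsFreeTopology Sp t) :
    Vset φ ∈ @nhds _ t 1 := by
  have h1 : @nhds _ t 1 ≤ @nhds _ (indTop φ) 1 := nhds_mono (ht.2 _ (indTop_admissible hφ))
  apply h1
  rw [nhds_induced, map_one]
  refine Filter.mem_comap.2 ⟨{M | |M.1 0 1| < 1 / 2}, ?_, Subset.rfl⟩
  refine IsOpen.mem_nhds ?_ ?_
  · exact isOpen_lt ((continuous_subtype_val.matrix_elem 0 1).abs) continuous_const
  · simp

/-- The test words. -/
def wd (x : K) (s : ℕ) : FreeGroup Sp :=
  FreeGroup.of (Sum.inr (some x)) *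
    ((FreeGroup.of (Sum.inl (some s)))⁻¹ * FreeGroup.of (Sum.inl none)) *
    (FreeGroup.of (Sum.inr (some x)))⁻¹

theorem wd_not_mem (φ : K → ℕ) (x : K) : wd x (φ x) ∉ Vset φ := by
  intro h
  have h1 : hom φ (wd x (φ x)) = Dg (amp φ (some x)) (amp_ne φ _) *
      Um (-(1 / ((φ x : ℝ) + 1) ^ 2)) * (Dg (amp φ (some x)) (amp_ne φ _))⁻¹ := by
    simp only [hom, wd, map_mul, map_inv, FreeGroup.lift_apply_of, imap, eps, Um_zero, mul_one,
      Um_inv]
  have h2 : |(hom φ (wd x (φ x))).1 0 1| < 1 / 2 := h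
  rw [h1, conj_entry] at h2
  have h3 : (amp φ (some x)) ^ 2 * (-(1 / ((φ x : ℝ) + 1) ^ 2)) = -1 := by
    simp only [amp]
    have : ((φ x : ℝ) + 1) ≠ 0 := by positivity
    field_simp
  rw [h3] at h2
  norm_num at h2

theorem wd_mem {t : TopologicalSpace (FreeGroup Sp)} (ht : t ∈ Admissible Sp)
    {W : Set (FreeGroup Sp)} (hW : W ∈ @nhds _ t 1) (x : K) :
    ∃ n : ℕ, ∀ s, n ≤ s → wd x s ∈ W := by
  obtain ⟨hg, hu⟩ := ht
  have hc : @Continuous _ _ t t (fun g : FreeGroup Sp =>
      FreeGroup.of (Sum.inr (some x)) * g * (FreeGroup.of (Sum.inr (some x)))⁻¹) := by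
    fun_prop
  have h1 : (fun g : FreeGroup Sp =>
      FreeGroup.of (Sum.inr (some x)) * g * (FreeGroup.of (Sum.inr (some x)))⁻¹) ⁻¹' W ∈
      @nhds _ t 1 := by
    apply hc.continuousAt
    simpa using hW
  obtain ⟨U, hU, h2⟩ := hu _ h1
  obtain ⟨n, C, hC, h3⟩ := mem_unif.1 hU
  refine ⟨n, fun s hs => ?_⟩
  have h4 : ((Sum.inl (some s), Sum.inl none) : Sp × Sp) ∈ U := by
    apply h3
    rw [mem_R]
    simp [col, colN, hs]
  exact (h2 _ h4).1

/-- Maps sending cofinal sets to cofinal sets. -/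
theorem exists_bound {P Q : Type*} [Preorder P] [Preorder Q] {θ : Q → P}
    (hθ : ∀ S : Set Q, Cofinal S → Cofinal (θ '' S)) (p : P) :
    ∃ q : Q, ∀ q', q ≤ q' → p ≤ θ q' := by
  by_contra hcon
  push Not at hcon
  have h1 : Cofinal {q' : Q | ¬ p ≤ θ q'} := by
    intro q
    obtain ⟨q', h1, h2⟩ := hcon q
    exact ⟨q', h2, h1⟩
  obtain ⟨_, ⟨q', h2, rfl⟩, h3⟩ := hθ _ h1 p
  exact h2 h3

/-- The elements `(R (f j) D)_j` of `𝒰 ^ ω`. -/
def Q (f : ℕ → ℕ) (D : {D : Set K // D.Countable}) : ℕ → Entourages Sp :=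
  fun j => OrderDual.toDual ⟨R (f j) D.1, R_mem_unif (f j) D.2⟩

theorem exists_Q_ge (q : ℕ → Entourages Sp) :
    ∃ (f : ℕ → ℕ) (D : {D : Set K // D.Countable}), ∀ D' : {D : Set K // D.Countable},
      D.1 ⊆ D'.1 → q ≤ Q f D' := by
  have h1 : ∀ j, ∃ (n : ℕ) (C : Set K), C.Countable ∧ R n C ⊆ (OrderDual.ofDual (q j)).1 :=
    fun j => mem_unif.1 (OrderDual.ofDual (q j)).2
  choose f D hD h2 using h1
  refine ⟨f, ⟨⋃ j, D j, countable_iUnion hD⟩, fun D' hD' j => ?_⟩
  change R (f j) D'.1 ⊆ (OrderDual.ofDual (q j)).1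
  exact (R_anti le_rfl ((subset_iUnion D j).trans hD')).trans (h2 j)

theorem not_tukeyLE {t : TopologicalSpace (FreeGroup Sp)} (ht : IsFreeTopology Sp t) :
    ¬ TukeyLE (IdNhds t) (ℕ → Entourages Sp) := by
  rintro ⟨θ, hθ⟩
  -- step one
  have h1 : ∀ φ : {φ : K → ℕ // {x | φ x ≠ 0}.Countable},
      ∃ (f : ℕ → ℕ) (D : {D : Set K // D.Countable}), ∀ D' : {D : Set K // D.Countable},
      D.1 ⊆ D'.1 → (OrderDual.ofDual (θ (Q f D'))).1 ⊆ Vset φ.1 := by
    intro φ
    obtain ⟨q, hq⟩ := exists_bound hθ (OrderDual.toDual ⟨Vset φ.1, Vset_mem φ.2 ht⟩)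
    obtain ⟨f, D, h1⟩ := exists_Q_ge q
    exact ⟨f, D, fun D' hD' => hq _ (h1 D' hD')⟩
  choose F D hFD using h1
  -- step two
  have h2 : ∀ (x : K) (f : ℕ → ℕ), ∃ b : ℕ, ∀ φ, F φ = f → φ.1 x ≤ b := by
    intro x f
    by_contra hcon
    push Not at hcon
    choose φ hφ h3 using hcon
    have hc : (⋃ k, (D (φ k)).1).Countable := countable_iUnion fun k => (D (φ k)).2
    obtain ⟨n, hn⟩ := wd_mem ht.1 (OrderDual.ofDual (θ (Q f ⟨_, hc⟩))).2 x
    have h4 := hFD (φ n) ⟨_, hc⟩ (subset_iUnion (fun k => (D (φ k)).1) n)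
    rw [hφ n] at h4
    exact wd_not_mem (φ n).1 x (h4 (hn _ (h3 n).le))
  choose b hb using h2
  -- step three
  obtain ⟨g, hg⟩ := Cardinal.exists_infinite_fiber (β := K) (α := (ℕ → ℕ) → ℕ) b
    (by rw [Cardinal.mk_set]; exact Cardinal.cantor _)
  classical
  let z : ℕ ↪ (b ⁻¹' {g} : Set K) := Infinite.natEmbedding _
  let z' : ℕ → K := fun i => (z i).1
  have hz' : Function.Injective z' := Subtype.val_injective.comp z.injective
  let φ : K → ℕ := fun x => if h : ∃ i, z' i = x then h.choose else 0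
  have hφz : ∀ i, φ (z' i) = i := by
    intro i
    have hex : ∃ j, z' j = z' i := ⟨i, rfl⟩
    have : φ (z' i) = hex.choose := by
      simp only [φ]
      rw [dif_pos hex]
    rw [this]
    exact hz' hex.choose_spec
  have hφc : {x | φ x ≠ 0}.Countable := by
    refine (countable_range z').mono ?_
    intro x hx
    by_contra hcon
    apply hx
    simp only [φ]
    rw [dif_neg]
    rintro ⟨i, hi⟩
    exact hcon ⟨i, hi⟩
  let f := F ⟨φ, hφc⟩
  have h5 : ∀ i, i ≤ g f := by
    intro i
    have h6 : b (z' i) = g := (z i).2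
    have h7 := hb (z' i) f ⟨φ, hφc⟩ rfl
    rw [h6] at h7
    simpa [hφz i] using h7
  exact absurd (h5 (g f + 1)) (by omega)

/-- Over every uniform space there is a finest admissible topology (`freeTopology`), and there is a
Hausdorff `ω`-narrow uniform space `X` for which `𝒩_e(F(X))` is not Tukey below `𝒰 ^ ω`; in
particular they are not Tukey equivalent. -/
theorem result :
    (∀ (X : Type) [UniformSpace X], IsFreeTopology X (freeTopology X)) ∧
    ∃ (X : Type) (_ : UniformSpace X), T2Space X ∧ OmegaNarrow X ∧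
      ¬ TukeyLE (IdNhds (freeTopology X)) (ℕ → Entourages X) ∧
      ¬ TukeyEq (IdNhds (freeTopology X)) (ℕ → Entourages X) := by
  refine ⟨fun X _ => isFreeTopology_freeTopology X, Sp, unif, t2, omegaNarrow, ?_, ?_⟩
  · exact not_tukeyLE (isFreeTopology_freeTopology Sp)
  · exact fun h => not_tukeyLE (isFreeTopology_freeTopology Sp) h.1

end Pool.Agent.Results.MP_f56686_gt.FreeGroupTukey
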